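import Mathlib
import Pool.Agent.H84.GHDefs
import Pool.Agent.H84.GHEx

set_option autoImplicit false

namespace Pool.Agent.Results.MP_c3dba2_gt.Imp

open Pool.Agent.H84.GHDefs

theorem result : StC → StH := fun h => (Pool.Agent.H84.GHEx.notC h).elim

end Pool.Agent.Results.MP_c3dba2_gt.Imp
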