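import Mathlib
import Pool.Agent.H84.GHDefs
import Pool.Agent.H84.GHEx

set_option autoImplicit false

namespace Pool.Agent.Results.MP_c3dba2_gt.Triple

open Pool.Agent.H84.GHDefs

theorem result : ∃ (X : Fin 3 → Type) (_ : ∀ i, MetricSpace (X i)) (_ : ∀ i, CompactSpace (X i))
    (_ : ∀ i, Nonempty (X i)), CTriple X ∧ ¬ HTriple X :=
  ⟨Pool.Agent.H84.GHEx.W, inferInstance, inferInstance, inferInstance, Pool.Agent.H84.GHEx.CW,
    Pool.Agent.H84.GHEx.notHW⟩

end Pool.Agent.Results.MP_c3dba2_gt.Triple
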